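import Pool.Agent.H.MP_b374f8_co.Main

namespace Pool.Agent.Results.MP_b374f8_co.Full
open Pool.Agent.H.MP_b374f8_co

theorem result (n : ℕ) (hn : 1 ≤ n) :
    Nat.card {π : Equiv.Perm (Fin n) // Avoids π} = p n ∧
    ∀ k, Nat.card {π : Equiv.Perm (Fin n) // Avoids π ∧
      Nat.card {i : Fin n // ∀ j, i < j → π i < π j} = k} = c n k :=
  ⟨total n hn, refined n hn⟩

end Pool.Agent.Results.MP_b374f8_co.Full
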